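import Pool.Agent.H95.SD.EvK

set_option autoImplicit false

/-!
# Subset-sum 1-designs on the nonzero elements of a cyclic group of even order (Q2)

For even `n`, `1 ≤ k ≤ n - 1` and all `x ∈ ℤ/n` let `B_k^{x,*}` be the family of all `k`-element
subsets of `ℤ/n \ {0}` with sum `x`. Then `(ℤ/n \ {0}, B_k^{x,*})` is a 1-design only in the trivial
case `k = n - 1`, where `x` is the sum of all elements (`= n / 2`) and `ℤ/n \ {0}` is the only block.

Sketch of the proof. By taking complements let `k < R = n / 2`. For a 1-design the Fourier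
coefficients of the number of blocks through a point are equal at all `v ≠ 0`. Up to a common sign and
additive constant, their sum over the `v` of the order `r` is `∑_{r ∣ d ∣ n} c_d(x) H(d, r)`, with the
Ramanujan sums `c_d(x)` and integers `H(d, r)` which do not depend on `x` (`sum_Wx`). As `|c_2(x)| = 1` and
`|c_d(x)| ≤ φ(d)`, the orders `2` and `n` give the inequality (`even_ineq`)
`|H(2, 2)| ≤ φ(k, n) + ∑_{1 < s ∣ R} φ(2 s) |H(2 s, 2)|`, where `φ(k, n)` is the number of integers in
`[1, k]` prime to `n`. But `|H(2, 2)|` is the binomial coefficient `C(R - 2, ⌊(k - 1)/2⌋)`, and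
`|H(2 s, 2)| ≤ C(R/s - 1, ⌊k/(2 s)⌋)` is `0` for `s > k`; so the inequality is false for `k ≥ 3`, with a few
exceptions with `n ∈ {8, 12, 16}` which are checked directly, as are `k = 1, 2`.
-/

namespace Pool.Agent.Results.MP_9415b6_co.EvenOneDesigns

open Pool.Agent.H95.SD

/-- **No nontrivial 1-designs `(ℤ/n \ {0}, B_k^{x,*})` for even `n`.** (`sg n` is the sum of all
elements.) -/
theorem result (n k : ℕ) [NeZero n] (hn : Even n) (hk1 : 1 ≤ k) (hk : k ≤ n - 1) (x : ZMod n) :
    IsDes n k x ↔ k = n - 1 ∧ x = sg n :=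
  even_main hn hk1 hk x

end Pool.Agent.Results.MP_9415b6_co.EvenOneDesigns
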