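import Pool.Agent.H95.SD.PG

set_option autoImplicit false

/-!
# Subset-sum 1-designs on the nonzero elements of a cyclic group of odd prime power order (Q2)

Let `n = q ^ a` with an odd prime `q` and let `B_k^{x,*}` be the family of all `k`-element subsets of
`ℤ/n \ {0}` with sum `x`. For `x ≠ 0` and `1 ≤ k ≤ n - 1`, `(ℤ/n \ {0}, B_k^{x,*})` is never a
1-design.

Sketch of the proof. If it is a 1-design, the coefficients `Wx n k x v` of `PuncturedOneDesigns`, with a
factor `e(-u x)` for each `u` with `i u = v`, have the same value `c` for all `v ≠ 0` (`constx`). Write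
`x = q ^ u x'` with `q ∤ x'`. Summing over all `v` with `q ^ u v = w`, `w` of order `q`, kills all `i`
divisible by `q` (`van`, `star`), and Fourier inversion modulo `q` shows that for each `γ` prime to `q`
the sum of the coefficients over the `i ≤ k` with `i ≡ γ (mod q)` is `-c` (`fval`). Comparing `γ = 1` with
`γ = q - 1` gives `k ≡ 0` or `-1 (mod q)` (`c1`); by complements let `q ∣ k`. If `u < a - 1`, then `c = 0`
(`c_zero`), and the closed form of the sum gives `q ^ u κ = (q ^ (a - u - 1) - 1) ⌊m / q⌋` with
`k = κ q ^ (u + 1) + m`, which is impossible (`c2a`). If `u = a - 1`, then `c = - k / q`, and the elements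
`v` of the orders `n` and `n / q` give a contradiction (`c2b`).
-/

namespace Pool.Agent.Results.MP_9415b6_co.PrimePowerDesigns

open Pool.Agent.H95.SD

/-- **No 1-designs `(ℤ/n \ {0}, B_k^{x,*})` for an odd prime power `n` and `x ≠ 0`.** -/
theorem result (q a k : ℕ) (hq : q.Prime) (hq3 : 3 ≤ q) [NeZero (q ^ a)] (hk1 : 1 ≤ k)
    (hk : k ≤ q ^ a - 1) (x : ZMod (q ^ a)) (hx : x ≠ 0) : ¬ IsDes (q ^ a) k x :=
  pp_nonzero hq hq3 hk1 hk hx

end Pool.Agent.Results.MP_9415b6_co.PrimePowerDesigns
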