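import Pool.Agent.H95.SD.Fin

set_option autoImplicit false

/-!
# Subset-sum 1-designs on the nonzero elements of a cyclic group of odd order (Q2)

For odd `n ≥ 3` and `1 ≤ k ≤ n - 1` let `B_k^{0,*}` be the family of all `k`-element subsets of
`ℤ/n \ {0}` with sum `0`. We determine all pairs `(n, k)` for which `(ℤ/n \ {0}, B_k^{0,*})` is a
1-design: this holds if and only if `k = n - 1`, or `2 ≤ k ≤ n - 3` and one of the following holds,
where `p` is the least prime factor of `n`:

* `k < p`,
* `n - 1 - k < p`,
* `n - 1` divides `k (q - 1)` for all prime factors `q` of `n` (for example `k = (n - 1) / 2`).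

So `(ℤ/n \ {0}, B_k^{x,*})` can be a 1-design in a nontrivial way.

Sketch of the proof. Let `N(y)` be the number of blocks which contain `y ≠ 0`. A recursion for the
elementary symmetric functions of the values of a character gives for `v ≠ 0`, up to a sign and an
additive constant, `N^(-v) = ∑_{1 ≤ i ≤ k} ∑_{u : i u = v} (-1) ^ a C(n/d - 1, a)`, where `d` is the
order of `u` and `a = ⌊(k - i)/d⌋`, and the structure is a 1-design iff this depends only on `k, n`
(`const_iff`). For an element `v` of the order `r` the elements `u` of the order `d`, `r ∣ d ∣ n`,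
contribute, with `κ = ⌊k/d⌋`, `m = k mod d`, the number
`(φ(d)/φ(r)) (-1) ^ κ C(n/d - 1, κ) (Φ(⌊m r/d⌋, r) - φ(r) κ / (n/d - 1))`, where `Φ(y, r)` is the number
of integers in `[1, y]` which are prime to `r` (`HH_mul`).

* Sufficiency (`suf_small`, `suf_div`): if `k = t (n - 1) / c` where all `q ≡ 1 (mod c)`, then also
  `m = t (d - 1) / c` and `Φ(t (r - 1) / c, r) = t φ(r) / c` (`Ph_eq`), so all contributions with `d < n`
  vanish.
* Necessity (`nec`): the orders `n / p` and `n` give `k < p` or `k ≥ n / p` (`step0`). For a prime `q ∣ n`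
  with `q ^ 2 ≤ n` the contribution of `d = q` to the order `q` dominates all others, unless it vanishes,
  which means that `n - 1` divides `k (q - 1)` (`main_mag`; `two_primes` if `n` is a product of two
  primes). At most one prime factor `q`, of multiplicity one, has `q ^ 2 > n`; it is treated by a
  congruence.
-/

namespace Pool.Agent.Results.MP_9415b6_co.PuncturedOneDesigns

open Pool.Agent.H95.SD

/-- **The 1-designs `(ℤ/n \ {0}, B_k^{0,*})`, `n` odd.** -/
theorem result (n k : ℕ) [NeZero n] (hn : Odd n) (hn3 : 3 ≤ n) (hk1 : 1 ≤ k) (hk : k ≤ n - 1) :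
    IsDes n k 0 ↔ k = n - 1 ∨ (2 ≤ k ∧ k + 3 ≤ n ∧ (k < n.minFac ∨ n - 1 - k < n.minFac ∨
      ∀ q : ℕ, q.Prime → q ∣ n → (n - 1) ∣ k * (q - 1))) :=
  odd_zero hn hn3 hk1 hk

end Pool.Agent.Results.MP_9415b6_co.PuncturedOneDesigns
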