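import Mathlib
import Pool.Agent.H954.SD.Z

/-!
# MP_9415b6_co, Q2: the families `B_k^{x,*}` as 1-designs, `n` odd, `x ≠ 0`

For odd squarefree `n` and `x ≠ 0` the `k`-subsets of `ℤ/n ∖ {0}` with sum `x`, `1 ≤ k ≤ n - 2`, never
form a 1-design. For odd `n` which is not squarefree the same is shown when `k` or `n - 1 - k` is
smaller than the least prime factor of `n`.
-/

set_option autoImplicit false

open Finset

namespace Pool.Agent.Results.MP_9415b6_co.StarDesigns

/-- `B_k^{x,*}`: the `k`-element subsets of `ℤ/n ∖ {0}` with sum `x`. -/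
def starBlocks (n : ℕ) [NeZero n] (k : ℕ) (x : ZMod n) : Finset (Finset (ZMod n)) :=
  (((univ : Finset (ZMod n)).erase 0).powersetCard k).filter (fun T => ∑ t ∈ T, t = x)

/-- `(ℤ/n ∖ {0}, B_k^{x,*})` is a 1-design: there is a block, and every nonzero point `y` lies in
the same number `r` of blocks. -/
def IsStarDesign (n : ℕ) [NeZero n] (k : ℕ) (x : ZMod n) : Prop :=
  (starBlocks n k x).Nonempty ∧
    ∃ r : ℕ, ∀ y : ZMod n, y ≠ 0 → ((starBlocks n k x).filter (fun T => y ∈ T)).card = r

/-- For odd `n`, `x ≠ 0` and `1 ≤ k ≤ n - 2` there is no 1-design if `n` is squarefree, or if `k` or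
`n - 1 - k` is smaller than the least prime factor of `n`. -/
theorem result (n : ℕ) [NeZero n] (k : ℕ) (x : ZMod n) (hn : n % 2 = 1) (hx : x ≠ 0)
    (hk1 : 1 ≤ k) (hk : k + 2 ≤ n)
    (hc : Squarefree n ∨ k < n.minFac ∨ n - 1 - k < n.minFac) :
    ¬ IsStarDesign n k x := by
  rcases hc with h | h
  · exact Pool.Agent.H954.SD.odd_sqfree hn h hx hk1 hk
  · intro hd
    exact hx ((Pool.Agent.H954.SD.edge_iff hk1 hk h).1 hd).1

end Pool.Agent.Results.MP_9415b6_co.StarDesigns
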